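import Pool.Agent.W495.TA.Stms

set_option autoImplicit false

namespace Pool.Agent.W351.TA

open NumberField Pool.Agent.H204R3.CM Pool.Agent.W547.KB Pool.Agent.W547.LD Module
open scoped TensorProduct
open Pool.Agent.W495.TA

noncomputable section

section
variable {p : ℕ} [Fact p.Prime] {ν : PadicAlgCl p ≃+* ℂ} {Ω : Type} [Field Ω] [CharZero Ω]
  {L : Type} [Field L]

theorem monoO_apply (jO : L →+* Ω) {Y : RedAV p ν} {κ : Type} [Fintype κ] [DecidableEq κ]
    (I : κ → Wt Y.X L) (v : κ → TM Ω Y) :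
    monoO jO I v = ∑ σ : Equiv.Perm κ, ((Equiv.Perm.sign σ : ℤ) : Ω) *
      ∏ k, co jO (I k) (v (σ k)) := by
  unfold monoO
  rw [MultilinearMap.alternatization_apply]
  refine Finset.sum_congr rfl fun σ _ => ?_
  rw [Units.smul_def, zsmul_eq_mul]
  rfl

theorem sum_alt {M κ ι : Type} [AddCommGroup M] [Module Ω M] (s : Finset ι)
    (F : ι → M [⋀^κ]→ₗ[Ω] Ω) (v : κ → M) : (∑ i ∈ s, F i) v = ∑ i ∈ s, F i v := by
  classical
  induction s using Finset.induction_on with
  | empty => rw [Finset.sum_empty, Finset.sum_empty]; rfl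
  | insert a s ha ih =>
    rw [Finset.sum_insert ha, Finset.sum_insert ha, AlternatingMap.add_apply, ih]

theorem alg_sum {Y : RedAV p ν} {κ ι : Type} (s : Finset ι) (F : ι → (TM Ω Y) [⋀^κ]→ₗ[Ω] Ω)
    (hF : ∀ i ∈ s, Alg Ω Y κ (F i)) : Alg Ω Y κ (∑ i ∈ s, F i) := by
  classical
  induction s using Finset.induction_on with
  | empty => rw [Finset.sum_empty]; exact Alg.zero Y κ
  | insert a s ha ih =>
    rw [Finset.sum_insert ha]
    exact Alg.add _ _ (hF a (Finset.mem_insert_self a s))
      (ih fun i hi => hF i (Finset.mem_insert_of_mem hi))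

end

/-- TA-EXPAND -/
theorem expand : S_expand := by
  intro p _ ν Ω _ _ L _ _ jO Y e h1 h0 κ _ _ f hf
  classical
  haveI : Module.Finite ℚ Y.X.H1 := Module.Finite.pi
  haveI : Finite (Wt Y.X L) := Module.Finite.finite_basis e
  letI : Fintype (Wt Y.X L) := Fintype.ofFinite _
  have hrep : ∀ w v, e.repr v w = co jO w v := by
    intro w v
    have : (e.coord w) = co jO w := by
      apply e.ext
      intro w'
      rw [Basis.coord_apply, Basis.repr_self]
      by_cases h : w = w'
      · subst h; rw [Finsupp.single_eq_same, h1]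
      · rw [Finsupp.single_eq_of_ne h]; exact (h0 w w' h).symm
    rw [← this]; rfl
  have hv : ∀ v, v = ∑ w, co jO w v • e w := by
    intro v
    conv_lhs => rw [← e.sum_repr v]
    exact Finset.sum_congr rfl fun w _ => by rw [hrep]
  have hfv : ∀ v : κ → TM Ω Y, f v =
      ∑ I : κ → Wt Y.X L, (∏ k, co jO (I k) (v k)) * f (fun k => e (I k)) := by
    intro v
    have h2 : f v = f.toMultilinearMap (fun k => ∑ w, co jO w (v k) • e w) := by
      change f v = f _
      congr 1
      funext k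
      exact hv (v k)
    rw [h2, MultilinearMap.map_sum]
    refine Finset.sum_congr rfl fun I _ => ?_
    rw [MultilinearMap.map_smul_univ]
    rfl
  have hsum : ((Fintype.card (Equiv.Perm κ) : ℕ) : Ω) • f =
      ∑ I : κ → Wt Y.X L, f (fun k => e (I k)) • monoO jO I := by
    ext v
    rw [sum_alt, AlternatingMap.smul_apply, smul_eq_mul]
    have h3 : ∀ σ : Equiv.Perm κ, f v = ((Equiv.Perm.sign σ : ℤ) : Ω) *
        ∑ I : κ → Wt Y.X L, (∏ k, co jO (I k) (v (σ k))) * f (fun k => e (I k)) := by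
      intro σ
      rw [← hfv (fun k => v (σ k))]
      have h3 : f (fun k => v (σ k)) = Equiv.Perm.sign σ • f v := f.map_perm v σ
      rw [h3, Units.smul_def, zsmul_eq_mul, ← mul_assoc,
        ← Int.cast_mul, ← Units.val_mul, Int.units_mul_self, Units.val_one, Int.cast_one, one_mul]
    have h4 : ((Fintype.card (Equiv.Perm κ) : ℕ) : Ω) * f v =
        ∑ σ : Equiv.Perm κ, ((Equiv.Perm.sign σ : ℤ) : Ω) *
          ∑ I : κ → Wt Y.X L, (∏ k, co jO (I k) (v (σ k))) * f (fun k => e (I k)) := by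
      rw [← Finset.sum_congr rfl (fun σ _ => h3 σ), Finset.sum_const, Finset.card_univ,
        nsmul_eq_mul]
    rw [h4]
    simp only [Finset.mul_sum]
    rw [Finset.sum_comm]
    refine Finset.sum_congr rfl fun I _ => ?_
    rw [AlternatingMap.smul_apply, smul_eq_mul, monoO_apply, Finset.mul_sum]
    refine Finset.sum_congr rfl fun σ _ => ?_
    ring
  have h5 : Alg Ω Y κ (((Fintype.card (Equiv.Perm κ) : ℕ) : Ω) • f) := by
    rw [hsum]
    refine alg_sum _ _ fun I _ => ?_
    by_cases hI : f (fun k => e (I k)) = 0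
    · rw [hI, zero_smul]
      exact Alg.zero Y κ
    · exact Alg.smul _ _ (hf I hI)
  have hne : ((Fintype.card (Equiv.Perm κ) : ℕ) : Ω) ≠ 0 :=
    Nat.cast_ne_zero.2 Fintype.card_ne_zero
  have h6 := Alg.smul (((Fintype.card (Equiv.Perm κ) : ℕ) : Ω))⁻¹ _ h5
  rwa [smul_smul, inv_mul_cancel₀ hne, one_smul] at h6

end

end Pool.Agent.W351.TA
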